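import Pool.Agent.helper51.RMX.Spec

set_option autoImplicit false

/-!
# Project rmx (MP_24e2e7_nt): row CFX
-/

namespace Pool.Agent.RMX

open Pool.Agent.RB NumberField IsDedekindDomain Module
open scoped nonZeroDivisors Real Classical IsMulCommutative

/-- the elements whose norm divisor vanishes -/
noncomputable def CFX_N {F K : Type} [Field F] [NumberField F] [Field K] [NumberField K] [Algebra F K]
    (Δ : Subgroup (K ≃ₐ[F] K)) : Subgroup Kˣ where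
  carrier := {y | ∀ P : HOS K, ∑ δ : Δ, ord (act ((δ : K ≃ₐ[F] K) : K ≃+* K) P) (y : K) = 0}
  one_mem' := fun P => Finset.sum_eq_zero fun δ _ => by rw [Units.val_one, ord_one]
  mul_mem' := by
    intro a b ha hb P
    have h1 : ∀ δ : Δ, ord (act ((δ : K ≃ₐ[F] K) : K ≃+* K) P) ((a * b : Kˣ) : K) =
        ord (act ((δ : K ≃ₐ[F] K) : K ≃+* K) P) (a : K) +
        ord (act ((δ : K ≃ₐ[F] K) : K ≃+* K) P) (b : K) := fun δ => by
      rw [Units.val_mul, ord_mul _ a.ne_zero b.ne_zero]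
    rw [Finset.sum_congr rfl fun δ _ => h1 δ, Finset.sum_add_distrib, ha P, hb P, add_zero]
  inv_mem' := by
    intro a ha P
    have h1 : ∀ δ : Δ, ord (act ((δ : K ≃ₐ[F] K) : K ≃+* K) P) ((a⁻¹ : Kˣ) : K) =
        -ord (act ((δ : K ≃ₐ[F] K) : K ≃+* K) P) (a : K) := fun δ => by
      rw [Units.val_inv_eq_inv_val, ord_inv]
    rw [Finset.sum_congr rfl fun δ _ => h1 δ, Finset.sum_neg_distrib, ha P, neg_zero]

theorem CFX_N_mem {F K : Type} [Field F] [NumberField F] [Field K] [NumberField K] [Algebra F K]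
    (Δ : Subgroup (K ≃ₐ[F] K)) (y : Kˣ) :
    y ∈ CFX_N Δ ↔ ∀ P : HOS K, ∑ δ : Δ, ord (act ((δ : K ≃ₐ[F] K) : K ≃+* K) P) (y : K) = 0 := Iff.rfl

theorem CFX_N_map {F K : Type} [Field F] [NumberField F] [Field K] [NumberField K] [Algebra F K]
    [IsAbelianGalois F K] (Δ : Subgroup (K ≃ₐ[F] K)) (ρ : K ≃ₐ[F] K) (y : Kˣ) (hy : y ∈ CFX_N Δ) :
    Units.map (ρ : K →* K) y ∈ CFX_N Δ := by
  rw [CFX_N_mem] at hy ⊢
  intro P
  have e : ((Units.map (ρ : K →* K) y : Kˣ) : K) = ρ (y : K) := rfl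
  rw [e, ← hy (act (ρ : K ≃+* K).symm P)]
  refine Finset.sum_congr rfl fun δ _ => ?_
  rw [(CF2_val ORD ρ _ (y : K)).2]
  obtain ⟨-, -, -, -, -, -, -, o8, -⟩ := ORD K
  rw [← o8, ← o8]
  have h2 : ((δ : K ≃ₐ[F] K) : K ≃+* K).trans (ρ : K ≃+* K).symm =
      (ρ : K ≃+* K).symm.trans ((δ : K ≃ₐ[F] K) : K ≃+* K) := by
    have h3 : ρ⁻¹ * (δ : K ≃ₐ[F] K) = (δ : K ≃ₐ[F] K) * ρ⁻¹ := mul_comm _ _
    apply RingEquiv.ext
    intro x
    exact congrArg (fun q : K ≃ₐ[F] K => q x) h3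
  rw [h2]

theorem CFX_sum {F K H : Type} [Field F] [NumberField F] [Field K] [NumberField K] [Field H]
    [NumberField H] [Algebra F K] [Algebra K H] [Algebra F H] [IsScalarTower F K H]
    [IsAbelianGalois F K] [IsAbelianGalois F H] (Δ : Subgroup (K ≃ₐ[F] K)) (y : Kˣ)
    (hy : y ∈ CFX_N Δ) (P : HOS K) :
    ∑ b : Δ.comap (AlgEquiv.restrictNormalHom K : (H ≃ₐ[F] H) →* (K ≃ₐ[F] K)),
      ord P ((AlgEquiv.restrictNormalHom K (b : H ≃ₐ[F] H) : K ≃ₐ[F] K) (y : K)) = 0 := by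
  have hsurj : Function.Surjective (AlgEquiv.restrictNormalHom K : (H ≃ₐ[F] H) →* (K ≃ₐ[F] K)) :=
    AlgEquiv.restrictNormalHom_surjective H
  set res : (H ≃ₐ[F] H) →* (K ≃ₐ[F] K) := AlgEquiv.restrictNormalHom K with hres
  have h1 : ∀ δ : Δ, ∃ b : Δ.comap res, res (b : H ≃ₐ[F] H) = (δ : K ≃ₐ[F] K) := by
    intro δ
    obtain ⟨g, hg⟩ := hsurj (δ : K ≃ₐ[F] K)
    refine ⟨⟨g, ?_⟩, hg⟩
    rw [Subgroup.mem_comap, hg]
    exact δ.2
  choose bb hbb using h1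
  set S : ℤ := ∑ b : Δ.comap res, ord P (res (b : H ≃ₐ[F] H) (y : K)) with hS
  have h2 : ∀ δ : Δ, S = ∑ b : Δ.comap res, ord P (res (b : H ≃ₐ[F] H) ((δ : K ≃ₐ[F] K) (y : K))) := by
    intro δ
    rw [hS]
    refine (Fintype.sum_equiv (Equiv.mulRight (bb δ)) _ _ fun b => ?_).symm
    rw [Equiv.coe_mulRight, Subgroup.coe_mul, map_mul, hbb]
    rfl
  have h3 : ∀ b : Δ.comap res,
      ∑ δ : Δ, ord P (res (b : H ≃ₐ[F] H) ((δ : K ≃ₐ[F] K) (y : K))) = 0 := by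
    intro b
    rw [← hy (act ((res (b : H ≃ₐ[F] H) : K ≃ₐ[F] K) : K ≃+* K).symm P)]
    refine Fintype.sum_equiv (Equiv.inv Δ) _ _ fun δ => ?_
    rw [(CF2_val ORD (res (b : H ≃ₐ[F] H)) P _).2, (CF2_val ORD (δ : K ≃ₐ[F] K) _ _).2]
    rfl
  have h4 : (Fintype.card Δ : ℤ) * S = 0 := by
    have h5 : ∑ δ : Δ, S = 0 := by
      rw [Finset.sum_congr rfl fun δ _ => h2 δ, Finset.sum_comm]
      exact Finset.sum_eq_zero fun b _ => h3 b
    rw [Finset.sum_const, Finset.card_univ, nsmul_eq_mul] at h5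
    exact h5
  rcases mul_eq_zero.1 h4 with h5 | h5
  · exfalso
    have h6 : Fintype.card Δ ≠ 0 := Fintype.card_ne_zero
    exact h6 (by exact_mod_cast h5)
  · exact h5

theorem CFX_zero {F K H : Type} [Field F] [NumberField F] [Field K] [NumberField K] [Field H]
    [NumberField H] [Algebra F K] [Algebra K H] [Algebra F H] [IsScalarTower F K H]
    [IsAbelianGalois F K] [IsAbelianGalois F H] (Δ : Subgroup (K ≃ₐ[F] K)) (y : Kˣ)
    (hy : y ∈ CFX_N Δ) (w : HOS H) :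
    (∑ᶠ b : Δ.comap (AlgEquiv.restrictNormalHom K : (H ≃ₐ[F] H) →* (K ≃ₐ[F] K)),
      MonoidAlgebra.single (b : H ≃ₐ[F] H) (1 : ℤ)) * ordZ F w (algebraMap K H (y : K)) = 0 := by
  obtain ⟨-, -, -, z4, z5⟩ := r_orz F H w
  rw [finsum_eq_sum_of_fintype, Finset.sum_mul]
  apply MonoidAlgebra.coeff_injective
  ext τ
  rw [MonoidAlgebra.coeff_sum, Finsupp.finsetSum_apply]
  obtain ⟨e, -, he⟩ := (VLU K H).1 (act (τ : H ≃+* H) w)
  have h1 : ∀ b : Δ.comap (AlgEquiv.restrictNormalHom K : (H ≃ₐ[F] H) →* (K ≃ₐ[F] K)),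
      (MonoidAlgebra.single (b : H ≃ₐ[F] H) (1 : ℤ) * ordZ F w (algebraMap K H (y : K))).coeff τ =
      (e : ℤ) * ord ((act (τ : H ≃+* H) w).under (𝓞 K))
        ((AlgEquiv.restrictNormalHom K (b : H ≃ₐ[F] H) : K ≃ₐ[F] K) (y : K)) := by
    intro b
    rw [← z4, z5]
    have h2 : (b : H ≃ₐ[F] H) (algebraMap K H (y : K)) =
        algebraMap K H ((AlgEquiv.restrictNormalHom K (b : H ≃ₐ[F] H) : K ≃ₐ[F] K) (y : K)) :=
      (AlgEquiv.restrictNormal_commutes (b : H ≃ₐ[F] H) K (y : K)).symm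
    rw [h2, (he _).2.1]
  rw [Finset.sum_congr rfl fun b _ => h1 b, ← Finset.mul_sum, CFX_sum Δ y hy, mul_zero]
  rfl

/-- the subgroup `M` -/
noncomputable def CFX_M {F K H : Type} [Field F] [NumberField F] [Field K] [NumberField K]
    [Field H] [NumberField H] [Algebra F K] [Algebra F H] [Algebra K H] (T V : Set (HOS F))
    (c : K ≃+* K) (W' T' : Set (HOS K)) (Δ : Subgroup (K ≃ₐ[F] K)) :
    AddSubgroup (Additive (Ut F H T V)) :=
  Subgroup.toAddSubgroup (((Ml c W' T' ⊓ CFX_N Δ).map (Units.map (algebraMap K H : K →* H))).comap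
    (Ut F H T V).subtype)

theorem CFX_M_mem {F K H : Type} [Field F] [NumberField F] [Field K] [NumberField K]
    [Field H] [NumberField H] [Algebra F K] [Algebra F H] [Algebra K H] (T V : Set (HOS F))
    (c : K ≃+* K) (W' T' : Set (HOS K)) (Δ : Subgroup (K ≃ₐ[F] K)) (x : Additive (Ut F H T V)) :
    x ∈ CFX_M T V c W' T' Δ ↔ ∃ y : Kˣ, (y ∈ Ml c W' T' ∧ y ∈ CFX_N Δ) ∧ algebraMap K H (y : K) =
      (((Additive.toMul x : Ut F H T V) : Hˣ) : H) := by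
  constructor
  · rintro ⟨y, hy, h⟩
    exact ⟨y, hy, congrArg Units.val h⟩
  · rintro ⟨y, hy, h⟩
    exact ⟨y, hy, Units.ext h⟩

theorem CFX (hCHX : CHX_stmt) (hVLX : VLX_stmt) (hPSX : PSX_stmt) (hEPX : EPX_stmt) (hTWX : TWX_stmt) (hCM2 : CM2_stmt) (hIDW : IDW_stmt) : CFX_stmt := by
  intro F H _ _ _ _ _ _ _ _ r D Lf hLf Θ hΘ W _ _ ι hι o ho u hu f hf χ hχ a j q hq hq2 ha hj hord h2q
  have hcc : D.c * D.c = 1 := by
    ext x
    rw [AlgEquiv.mul_apply, D.hc, D.hc]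
    exact IsCMField.complexConj_apply_apply H x
  obtain ⟨hBB, hcB', hcardB, -⟩ := hPSX (H ≃ₐ[F] H) D.c χ a j q hq hq2 ha hj hord hχ
  obtain ⟨L, K, i1, i2, i3, i4, i5, i6, i7, i8, i9, i10, i11, i12, i13, i14, hker, hker', hcK, hcL,
    hcardΔ⟩ := hTWX F H D.c D.hc χ.ker (χ ^ q).ker hBB hcB'
  obtain ⟨⟨ε, N₀, hN₀, hε1, hε2⟩, hEP⟩ := hEPX (H ≃ₐ[F] H) χ.ker (χ ^ q).ker D.c hcc hBB
  set res : (H ≃ₐ[F] H) →* (K ≃ₐ[F] K) := AlgEquiv.restrictNormalHom K with hres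
  have hcardq : Nat.card (AlgEquiv.restrictNormalHom L : (K ≃ₐ[F] K) →* (L ≃ₐ[F] L)).ker = q := by
    have h1 : 0 < Nat.card χ.ker := Nat.card_pos
    rw [hcardB] at hcardΔ
    exact Nat.eq_of_mul_eq_mul_right h1 hcardΔ
  have hresx : ∀ (σ : H ≃ₐ[F] H) (x : K), algebraMap K H (res σ x) = σ (algebraMap K H x) :=
    fun σ x => AlgEquiv.restrictNormal_commutes σ K x
  set c' : K ≃ₐ[F] K := res D.c with hc'
  set W' : Set (HOS K) := {P : HOS K | ∃ j, P.under (𝓞 F) = (D.w j).under (𝓞 F)} with hW'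
  set T' : Set (HOS K) := {P : HOS K | P.under (𝓞 F) ∈ D.T} with hT'
  have hsplit : ∀ j, {P : HOS H | P.under (𝓞 F) = (D.w j).under (𝓞 F)}.ncard = finrank F H := by
    intro j
    rw [D.hw j]
    exact D.hvs j
  have hwinj : ∀ i j, (D.w i).under (𝓞 F) = (D.w j).under (𝓞 F) → i = j := by
    intro i j h
    rw [D.hw i, D.hw j] at h
    exact D.hv h
  obtain ⟨hle, hidx, d, z, hdodd, hz⟩ := hCM2 F L K H r D q hq hq2 hcardq hcK hcL Lf hLf Θ hΘ
  obtain ⟨Δ, hΔ⟩ : ∃ Δ : Subgroup (K ≃ₐ[F] K),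
      Δ = (AlgEquiv.restrictNormalHom L : (K ≃ₐ[F] K) →* (L ≃ₐ[F] L)).ker := ⟨_, rfl⟩
  have hΔcomap : Δ.comap res = (χ ^ q).ker := by
    rw [hΔ]
    exact hker'
  rw [← hΔ] at hidx hz
  obtain ⟨hinj1, hinj2⟩ := r_inj F H r D
  have hordK := ORD K
  obtain ⟨hv1, -, -, hv2⟩ := VLU K H
  set M : AddSubgroup (Additive (Ut F H (D.T : Set (HOS F)) (Set.range D.v))) := CFX_M (D.T : Set (HOS F)) (Set.range D.v) (c' : K ≃+* K) W' T' Δ with hM
  -- the elements of `M`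
  have hMs : ∀ g : H ≃ₐ[F] H, ∀ x ∈ M, CF2_s ORD (D.T : Set (HOS F)) (Set.range D.v) g x ∈ M := by
    intro g x hx
    rw [hM, CFX_M_mem] at hx ⊢
    obtain ⟨y, ⟨hy, hyN⟩, hyx⟩ := hx
    have hcomm : ∀ t : K, c' (res g t) = res g (c' t) := by
      intro t
      have h1 : c' * res g = res g * c' := by
        rw [hc', ← map_mul, ← map_mul, mul_comm]
      exact congrArg (fun q : K ≃ₐ[F] K => q t) h1
    refine ⟨Units.map ((res g : K ≃ₐ[F] K) : K →* K) y, ⟨?_, CFX_N_map Δ (res g) y hyN⟩, ?_⟩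
    · refine CF2_ml ORD W' T' ?_ ?_ (res g) c' hcomm y hy
      · intro P Q hPQ
        rw [hW', Set.mem_ofPred_eq, Set.mem_ofPred_eq, hPQ]
      · intro P Q hPQ
        rw [hT', Set.mem_ofPred_eq, Set.mem_ofPred_eq, hPQ]
    · rw [CF2_s_val, ← hyx]
      exact hresx g (y : K)
  have hMb : ∀ b ∈ χ.ker, ∀ x ∈ M, CF2_s ORD (D.T : Set (HOS F)) (Set.range D.v) b x = x := by
    intro b hb x hx
    rw [hM, CFX_M_mem] at hx
    obtain ⟨y, ⟨hy, -⟩, hyx⟩ := hx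
    have h1 : res b = 1 := by
      have : b ∈ res.ker := by rw [hker]; exact hb
      exact this
    apply Additive.toMul.injective
    apply Subtype.ext
    apply Units.ext
    rw [CF2_s_val, ← hyx, ← hresx, h1]
    rfl
  have hMc1 : ∀ x ∈ M, (((Additive.toMul x : Ut F H (D.T : Set (HOS F)) (Set.range D.v)) : Hˣ) : H) *
      D.c (((Additive.toMul x : Ut F H (D.T : Set (HOS F)) (Set.range D.v)) : Hˣ) : H) = 1 := by
    intro x hx
    rw [hM, CFX_M_mem] at hx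
    obtain ⟨y, ⟨hy, -⟩, hyx⟩ := hx
    rw [← hyx, ← hresx, ← map_mul]
    have h1 : (y : K) * c' (y : K) = 1 := hy.1
    have h2 : (y : K) * res D.c (y : K) = 1 := h1
    rw [h2, map_one]
  have hMc : ∀ x ∈ M, CF2_s ORD (D.T : Set (HOS F)) (Set.range D.v) D.c x = -x := by
    intro x hx
    have h1 := hMc1 x hx
    rw [eq_neg_iff_add_eq_zero, add_comm]
    apply Additive.toMul.injective
    apply Subtype.ext
    apply Units.ext
    exact h1
  have hβ : ∀ (j : Fin r) (g : H ≃ₐ[F] H) (x : Additive (Ut F H (D.T : Set (HOS F)) (Set.range D.v))),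
      CF2_b r_orz (D.T : Set (HOS F)) (Set.range D.v) (D.w j) (CF2_s ORD (D.T : Set (HOS F)) (Set.range D.v) g x) =
        MonoidAlgebra.single g 1 * CF2_b r_orz (D.T : Set (HOS F)) (Set.range D.v) (D.w j) x := by
    intro j g x
    exact (r_orz F H (D.w j)).2.2.2.1 g _
  have hιs : ∀ (g : H ≃ₐ[F] H) (x : Additive (Ut F H (D.T : Set (HOS F)) (Set.range D.v))),
      ι (CF2_s ORD (D.T : Set (HOS F)) (Set.range D.v) g x) = (MonoidAlgebra.single g 1 : MonoidAlgebra ℚ (H ≃ₐ[F] H)) • ι x := by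
    intro g x
    exact hι.equiv g (Additive.toMul x) (Additive.toMul (CF2_s ORD (D.T : Set (HOS F)) (Set.range D.v) g x)) (CF2_s_val ORD (D.T : Set (HOS F)) (Set.range D.v) g x)
  have hφ : ∀ (i : Fin r) (g : H ≃ₐ[F] H) (x : Additive (Ut F H (D.T : Set (HOS F)) (Set.range D.v))),
      CF2_p ι (f i) (map_add (f i)) (hf i) (CF2_s ORD (D.T : Set (HOS F)) (Set.range D.v) g x) =
        MonoidAlgebra.single g 1 * CF2_p ι (f i) (map_add (f i)) (hf i) x := by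
    intro i g x
    apply CF2_zq_inj
    rw [map_mul, ← CF2_p_spec, ← CF2_p_spec, hιs, map_smul, CF2_zq_single, smul_eq_mul]
  have hβE : ∀ j : Fin r, ∀ x ∈ M, CF2_b r_orz (D.T : Set (HOS F)) (Set.range D.v) (D.w j) x ∈
      ElX (PsN χ.ker (χ ^ q).ker D.c) := by
    intro j x hx
    rw [hEP]
    refine ⟨⟨fun b hb => ?_, ?_⟩, ?_⟩
    · rw [← hβ, hMb b hb x hx]
    · rw [← hβ, hMc x hx, map_neg]
    · have hx' := hx
      rw [hM, CFX_M_mem] at hx'
      obtain ⟨y, ⟨-, hyN⟩, hyx⟩ := hx'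
      have h1 := CFX_zero (H := H) Δ y hyN (D.w j)
      rw [hyx, ← hres, hΔcomap] at h1
      exact h1
  have hMinj : ∀ x ∈ M, (∀ j : Fin r, CF2_b r_orz (D.T : Set (HOS F)) (Set.range D.v) (D.w j) x = 0) → x = 0 := by
    intro x hx h0
    have h1 := hinj1 ((Additive.toMul x : Ut F H (D.T : Set (HOS F)) (Set.range D.v)) : Hˣ) (Additive.toMul x : Ut F H (D.T : Set (HOS F)) (Set.range D.v)).2
      (hMc1 x hx) h0
    apply Additive.toMul.injective
    apply Subtype.ext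
    exact h1
  -- the index
  have hN : ∀ y : Fin r → MonoidAlgebra ℤ (H ≃ₐ[F] H),
      y ∈ M.map (AddMonoidHom.pi (fun j => CF2_b r_orz (D.T : Set (HOS F)) (Set.range D.v) (D.w j))) ↔
      ∃ x ∈ Ml (c' : K ≃+* K) W' T',
        (∀ P : HOS K, ∑ δ : Δ, ord (act ((δ : K ≃ₐ[F] K) : K ≃+* K) P) (x : K) = 0) ∧
        ∀ j, y j = ordZ F (D.w j) (algebraMap K H (x : K)) := by
    intro y
    constructor
    · rintro ⟨x, hx, hxy⟩
      have hx' : x ∈ M := hx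
      rw [hM, CFX_M_mem] at hx'
      obtain ⟨t, ⟨ht, htN⟩, htx⟩ := hx'
      refine ⟨t, ht, htN, fun j => ?_⟩
      rw [← hxy, htx]
      rfl
    · rintro ⟨t, ht, htN, hty⟩
      have hU : Units.map (algebraMap K H : K →* H) t ∈ Ut F H (D.T : Set (HOS F)) (Set.range D.v) := by
        refine ⟨fun P hP => ?_, fun P hP => ?_⟩
        · have e : ((Units.map (algebraMap K H : K →* H) t : Hˣ) : H) - 1 =
              algebraMap K H ((t : K) - 1) := by
            rw [map_sub, map_one]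
            rfl
          rw [e]
          obtain ⟨e', -, he'⟩ := hv1 P
          rw [(he' ((t : K) - 1)).2.2.1]
          apply ht.2.2
          change (P.under (𝓞 K)).under (𝓞 F) ∈ D.T
          rw [hv2 F P]
          exact hP
        · have e : ((Units.map (algebraMap K H : K →* H) t : Hˣ) : H) =
              algebraMap K H (t : K) := rfl
          rw [e]
          obtain ⟨e', -, he'⟩ := hv1 P
          rw [(he' (t : K)).2.2.2]
          rw [← hordK.2.2.1 (t : K) _ t.ne_zero]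
          apply ht.2.1
          rintro ⟨j, hj⟩
          apply hP
          rw [hv2 F P, D.hw j] at hj
          exact ⟨j, hj.symm⟩
      refine ⟨Additive.ofMul ⟨_, hU⟩, ?_, ?_⟩
      · change Additive.ofMul (⟨_, hU⟩ : Ut F H (D.T : Set (HOS F)) (Set.range D.v)) ∈ M
        rw [hM, CFX_M_mem]
        exact ⟨t, ⟨ht, htN⟩, rfl⟩
      · funext j
        exact (hty j).symm
  have hIDX := hIDW F K H r D.w hsplit hwinj D.c hcc T' Δ hle _ hN
  rw [← hres, hker, hΔcomap] at hIDX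
  have hI : (M.map (AddMonoidHom.pi (fun j => CF2_b r_orz (D.T : Set (HOS F)) (Set.range D.v) (D.w j)))).relIndex
      (AddSubgroup.pi Set.univ (fun _ : Fin r => ElX (PsN χ.ker (χ ^ q).ker D.c))) ≠ 0 := by
    rw [hIDX]
    exact hidx
  -- injectivity on the minus part
  have hWm : ∀ w : W, (MonoidAlgebra.single D.c 1 : MonoidAlgebra ℚ (H ≃ₐ[F] H)) • w = -w →
      (∀ j, o j w = 0) → w = 0 := by
    intro w hw hwo
    obtain ⟨n, x, hn, hx⟩ := hι.denom w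
    have h1 : ι (Additive.ofMul x + CF2_s ORD (D.T : Set (HOS F)) (Set.range D.v) D.c (Additive.ofMul x)) = 0 := by
      rw [map_add, hιs, ← hx, smul_comm, hw, smul_neg, add_neg_cancel]
    obtain ⟨n', hn', hx'⟩ := hι.ker (x * Additive.toMul (CF2_s ORD (D.T : Set (HOS F)) (Set.range D.v) D.c (Additive.ofMul x))) h1
    have h2 := hinj2 _ (x * Additive.toMul (CF2_s ORD (D.T : Set (HOS F)) (Set.range D.v) D.c (Additive.ofMul x))).2 n' hn'
      (congrArg Subtype.val hx')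
    have h3 : ((x : Hˣ) : H) * D.c ((x : Hˣ) : H) = 1 := congrArg Units.val h2
    have h4 : ∀ j, ordZ F (D.w j) ((x : Hˣ) : H) = 0 := by
      intro j
      apply CF2_zq_inj
      rw [← ho j x, ← hx, map_nsmul, hwo j, smul_zero, map_zero]
    have h5 := hinj1 (x : Hˣ) x.2 h3 h4
    have h6 : x = 1 := Subtype.ext h5
    rw [h6, ofMul_one, map_zero] at hx
    exact CF2_div (G := H ≃ₐ[F] H) n hn w hx
  rw [hker, hker'] at hz
  obtain ⟨z', hz'⟩ := hCHX (H ≃ₐ[F] H) D.c hcc (PsN χ.ker (χ ^ q).ker D.c) ε N₀ hN₀ hε1 hε2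
    (Additive (Ut F H (D.T : Set (HOS F)) (Set.range D.v))) (CF2_s ORD (D.T : Set (HOS F)) (Set.range D.v)) M r
    (fun j => CF2_b r_orz (D.T : Set (HOS F)) (Set.range D.v) (D.w j)) (fun i => CF2_p ι (f i) (map_add (f i)) (hf i))
    hMs hβ hφ hβE hMinj hI W ι o f hιs (fun j x => ho j (Additive.toMul x))
    (fun i x => CF2_p_spec ι (f i) (map_add (f i)) (hf i) x) hWm u d (finrank ℚ F) z
    (by rw [hIDX, hu]; exact hz)
  exact hVLX (H ≃ₐ[F] H) D.c χ a j q hq hq2 ha hj hord hχ h2q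
    (DT (fun j => (f j).comp (Wm D.c W).subtype) u) (finrank ℚ F) d z' hdodd hz'

end Pool.Agent.RMX
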