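import Pool.Agent.helper51.RMX.Spec

set_option autoImplicit false

/-!
# Project rmx (MP_24e2e7_nt): row IBX
-/

namespace Pool.Agent.RMX

open Pool.Agent.RB NumberField IsDedekindDomain Module
open scoped nonZeroDivisors Real Classical IsMulCommutative

theorem IBX_ord_zpow {K : Type} [Field K] [NumberField K] (P : HOS K) (x : K) (n : ℤ) :
    ord P (x ^ n) = n * ord P x := by
  rw [ord, ord, map_zpow₀, WithZero.log_zpow, smul_eq_mul]
  ring

/-- an element of order 1 at `P` and 0 at the other primes of a finite set -/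
theorem IBX_one {K : Type} [Field K] [NumberField K] (S : Finset (HOS K)) (P : HOS K) :
    ∃ x : K, x ≠ 0 ∧ ord P x = 1 ∧ ∀ Q ∈ S, Q ≠ P → ord Q x = 0 := by
  obtain ⟨p0, hp0⟩ := P.intValuation_exists_uniformizer
  obtain ⟨y, hy⟩ := exists_forall_sub_mem_ideal (s := insert P S) (fun Q : HOS K => Q.asIdeal)
    (fun _ => 2) (fun Q _ => Q.prime) (fun Q _ Q' _ h h' => h (HeightOneSpectrum.ext h'))
    (fun Q => if (Q : HOS K) = P then p0 else 1)
  have h1 : ∀ (Q : HOS K) (z : 𝓞 K), z ∈ Q.asIdeal ^ 2 →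
      Q.valuation K (algebraMap (𝓞 K) K z) < WithZero.exp (-1 : ℤ) := by
    intro Q z hz
    rw [HeightOneSpectrum.valuation_of_algebraMap]
    refine lt_of_le_of_lt ((Q.intValuation_le_pow_iff_mem z 2).2 hz) ?_
    rw [WithZero.exp_lt_exp]
    norm_num
  have hP : P.valuation K (algebraMap (𝓞 K) K y) = WithZero.exp (-1 : ℤ) := by
    have h2 := h1 P _ (hy P (Finset.mem_insert_self P S))
    rw [if_pos rfl, map_sub] at h2
    have h3 : algebraMap (𝓞 K) K y =
        algebraMap (𝓞 K) K p0 + (algebraMap (𝓞 K) K y - algebraMap (𝓞 K) K p0) := by ring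
    have h4 : P.valuation K (algebraMap (𝓞 K) K p0) = WithZero.exp (-1 : ℤ) := by
      rw [HeightOneSpectrum.valuation_of_algebraMap, hp0]
    rw [h3, Valuation.map_add_eq_of_lt_left _ (by rw [h4]; exact h2), h4]
  refine ⟨algebraMap (𝓞 K) K y, ?_, ?_, fun Q hQ hQP => ?_⟩
  · intro h
    rw [h, map_zero] at hP
    exact WithZero.exp_ne_zero hP.symm
  · rw [ord, hP, WithZero.log_exp, neg_neg]
  · have h2 := h1 Q _ (hy Q (Finset.mem_insert_of_mem hQ))
    rw [if_neg hQP, map_sub, map_one] at h2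
    have h3 : algebraMap (𝓞 K) K y = 1 + (algebraMap (𝓞 K) K y - 1) := by ring
    have h5 : Q.valuation K (algebraMap (𝓞 K) K y - 1) < 1 := by
      refine h2.trans ?_
      rw [← WithZero.exp_zero, WithZero.exp_lt_exp]
      norm_num
    have h4 : Q.valuation K (algebraMap (𝓞 K) K y) = 1 := by
      rw [h3, Valuation.map_add_eq_of_lt_left _ (by rw [map_one]; exact h5), map_one]
    rw [ord, h4, WithZero.log_one, neg_zero]

/-- weak approximation -/
theorem IBX_appr {K : Type} [Field K] [NumberField K] (S : Finset (HOS K)) (E : HOS K → ℤ) :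
    ∃ x : K, x ≠ 0 ∧ ∀ Q ∈ S, ord Q x = E Q := by
  have h1 : ∀ A : Finset (HOS K), ∃ x : K, x ≠ 0 ∧ ∀ Q ∈ S, ord Q x = if Q ∈ A then E Q else 0 := by
    intro A
    induction A using Finset.induction_on with
    | empty => exact ⟨1, one_ne_zero, fun Q _ => by rw [ord_one, if_neg (Finset.notMem_empty Q)]⟩
    | insert P A hPA ih =>
      obtain ⟨x, hx, h2⟩ := ih
      obtain ⟨t, ht, h3, h4⟩ := IBX_one S P
      refine ⟨x * t ^ (E P), mul_ne_zero hx (zpow_ne_zero _ ht), fun Q hQ => ?_⟩
      rw [ord_mul Q hx (zpow_ne_zero _ ht), IBX_ord_zpow, h2 Q hQ]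
      by_cases hQP : Q = P
      · subst hQP
        rw [if_neg hPA, h3, if_pos (Finset.mem_insert_self Q A)]
        ring
      · rw [h4 Q hQ hQP]
        simp only [Finset.mem_insert, hQP, false_or, mul_zero, add_zero]
  obtain ⟨x, hx, h2⟩ := h1 S
  exact ⟨x, hx, fun Q hQ => by rw [h2 Q hQ, if_pos hQ]⟩

theorem IBX : IBX_stmt := by
  intro k K _ _ _ _ _ _ _ _ c hc hck T
  obtain ⟨-, hcc, -, -⟩ := CCJ k K c hc hck
  obtain ⟨hfin, -, -, -, -, hact, hrefl, htrans, hund⟩ := ORD K
  have hPP : ∀ P : HOS K, act c (act c P) = P := by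
    intro P
    rw [← htrans, show c.trans c = RingEquiv.refl K from RingEquiv.ext hcc, hrefl]
  have hord : ∀ (P : HOS K) (y : K), ord P (c y) = ord (act c P) y := by
    intro P y
    have h2 := (hact c (act c P) y).2
    rw [hPP] at h2
    exact h2
  have hunder : ∀ P : HOS K, (act c P).under (𝓞 k) = P.under (𝓞 k) := fun P => hund k c P hck
  set W : Set (HOS K) := {P : HOS K | P.under (𝓞 k) ∉ T} with hW
  -- the kernel
  have hker : (IDB_hom c W).ker = (dM c W ∅).addSubgroupOf (DV c W) := by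
    apply le_antisymm
    · intro D hD
      rw [AddMonoidHom.mem_ker] at hD
      have h1 : IDB_pos (D : Dv K) ∈ Pr K ⊔ Inv c := (QuotientAddGroup.eq_zero_iff _).1 hD
      obtain ⟨Y, ⟨y, hy0, hy⟩, E, hE, hYE⟩ := AddSubgroup.mem_sup.1 h1
      have hcy : c y ≠ 0 := (map_ne_zero c).2 hy0
      have hDP : ∀ P : HOS K, (D : Dv K) P = ord P (y * (c y)⁻¹) := by
        intro P
        rw [ord_mul P hy0 (inv_ne_zero hcy), ord_inv, hord, ← IDB_pos_sub D.2 P, ← hYE,
          Finsupp.add_apply, Finsupp.add_apply, hy, hy, hE P]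
        ring
      rw [AddSubgroup.mem_addSubgroupOf]
      refine ⟨Units.mk0 (y * (c y)⁻¹) (mul_ne_zero hy0 (inv_ne_zero hcy)), ⟨?_, ?_, ?_⟩, ?_⟩
      · rw [Units.val_mk0, map_mul, map_inv₀, hcc]
        field_simp
      · intro P hP
        rw [Units.val_mk0, ← hDP]
        exact D.2.1 P hP
      · intro P hP
        exact absurd hP (Set.notMem_empty P)
      · intro P
        rw [Units.val_mk0]
        exact hDP P
    · intro D hD
      rw [AddSubgroup.mem_addSubgroupOf] at hD
      obtain ⟨x, ⟨hx1, -, -⟩, hx⟩ := hD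
      obtain ⟨y, hy0, hxy⟩ := fin_h90 k K c hc hck (x : K) hx1
      have hcy : c y ≠ 0 := (map_ne_zero c).2 hy0
      rw [AddMonoidHom.mem_ker]
      refine (QuotientAddGroup.eq_zero_iff _).2 ?_
      have hY : (Finsupp.ofSupportFinite (fun P => ord P y) (hfin y hy0) : Dv K) ∈ Pr K :=
        ⟨y, hy0, fun P => rfl⟩
      have hE : IDB_pos (D : Dv K) - Finsupp.ofSupportFinite (fun P => ord P y) (hfin y hy0) ∈
          Inv c := by
        intro P
        have h1 := IDB_pos_sub D.2 P
        have h2 : (D : Dv K) P = ord P y - ord (act c P) y := by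
          rw [hx, hxy, div_eq_mul_inv, ord_mul P hy0 (inv_ne_zero hcy), ord_inv, hord]
          ring
        rw [Finsupp.sub_apply, Finsupp.sub_apply]
        show IDB_pos (D : Dv K) (act c P) - ord (act c P) y = IDB_pos (D : Dv K) P - ord P y
        linarith
      have h3 := AddSubgroup.add_mem_sup hY hE
      rw [add_sub_cancel] at h3
      exact h3
  -- surjectivity
  have hTfin : {Q : HOS K | Q.under (𝓞 k) ∈ T}.Finite := by
    have h1 : {Q : HOS K | Q.under (𝓞 k) ∈ T} = ⋃ p ∈ T, {q : HOS K | q.under (𝓞 k) = p} := by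
      ext q
      simp
    rw [h1]
    exact Set.Finite.biUnion (Finset.finite_toSet _) fun p _ => CP2_fin k K p
  have hsurj : Function.Surjective (IDB_hom c W) := by
    intro q
    obtain ⟨E, rfl⟩ := QuotientAddGroup.mk_surjective q
    obtain ⟨x, hx, hxE⟩ := IBX_appr hTfin.toFinset (fun P => E P)
    set X : Dv K := Finsupp.ofSupportFinite (fun P => ord P x) (hfin x hx) with hX
    have hXP : ∀ P, X P = ord P x := fun P => rfl
    obtain ⟨E', hE'⟩ : ∃ E' : Dv K, E' = E - X := ⟨_, rfl⟩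
    have hE'0 : ∀ P : HOS K, P ∉ W → E' P = 0 := by
      intro P hP
      have hP' : P.under (𝓞 k) ∈ T := by
        by_contra h
        exact hP h
      rw [hE', Finsupp.sub_apply, hXP, hxE P ((Set.Finite.mem_toFinset _).2 hP'), sub_self]
    -- the conjugate of E'
    have hinj : Function.Injective (act c : HOS K → HOS K) := fun P Q h => by
      rw [← hPP P, h, hPP]
    obtain ⟨cE, hcEP⟩ : ∃ cE : Dv K, ∀ P, cE P = E' (act c P) :=
      ⟨Finsupp.comapDomain (act c) E' hinj.injOn, fun P => rfl⟩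
    have hD : E' - cE ∈ DV c W := by
      refine ⟨fun P hP => ?_, fun P => ?_⟩
      · rw [Finsupp.sub_apply, hcEP, hE'0 P hP, hE'0 (act c P), sub_self]
        intro h
        apply hP
        have h2 : (act c P).under (𝓞 k) ∉ T := h
        rw [hunder] at h2
        exact h2
      · rw [Finsupp.sub_apply, Finsupp.sub_apply, hcEP, hcEP, hPP]
        ring
    refine ⟨⟨E' - cE, hD⟩, ?_⟩
    have hI : IDB_pos (E' - cE) - E' ∈ Inv c := by
      intro P
      have h1 := IDB_pos_sub hD P
      rw [Finsupp.sub_apply, hcEP] at h1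
      rw [Finsupp.sub_apply, Finsupp.sub_apply]
      linarith
    have h2 : IDB_pos (E' - cE) - E ∈ Pr K ⊔ Inv c := by
      have h3 : IDB_pos (E' - cE) - E = (IDB_pos (E' - cE) - E') + -X := by
        rw [hE']
        abel
      rw [h3]
      exact AddSubgroup.add_mem _ (AddSubgroup.mem_sup_right hI)
        (AddSubgroup.mem_sup_left ((Pr K).neg_mem ⟨x, hx, hXP⟩))
    show (QuotientAddGroup.mk (IDB_pos (E' - cE)) : Dv K ⧸ (Pr K ⊔ Inv c)) = QuotientAddGroup.mk E
    rw [QuotientAddGroup.eq]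
    have h4 := AddSubgroup.neg_mem _ h2
    rw [neg_sub] at h4
    rw [neg_add_eq_sub]
    exact h4
  show ((dM c W ∅).addSubgroupOf (DV c W)).index = (Pr K ⊔ Inv c).index
  rw [← hker, AddSubgroup.index_ker, AddMonoidHom.range_eq_top.2 hsurj, AddSubgroup.index]
  exact Nat.card_congr AddSubgroup.topEquiv.toEquiv

end Pool.Agent.RMX
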